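import Pool.Agent.Helper36.LD4.Stp

/-!
# Project LD4, block SYb1: the functions `fb` satisfy `Fn`
-/

set_option autoImplicit false

namespace Pool.Agent.Helper36.LD4

open Set MeasureTheory
open Pool.Agent.Helper41.LD (haar ind)
open Pool.Agent.Helper41.LD4

theorem psi_abs (r a : ℕ) : |psi r a| ≤ 1 := by
  unfold psi
  split_ifs with h1 h2 h3
  · simp
  · have h4 : (1 : ℝ) ≤ r := by exact_mod_cast Nat.one_le_iff_ne_zero.2 h1
    rw [abs_of_nonneg (by positivity), div_le_one (by linarith)]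
    exact h4
  · simp
  · simp

/-- mean zero of the Helmert functions -/
theorem psi_sum {b r : ℕ} (hr : 1 ≤ r) (hrb : r < b) : ∑ a ∈ Finset.range b, psi r a = 0 := by
  obtain ⟨d, rfl⟩ : ∃ d, b = (r + 1) + d := ⟨b - (r + 1), by omega⟩
  rw [Finset.sum_range_add, Finset.sum_range_succ]
  have h1 : ∑ a ∈ Finset.range r, psi r a = 1 := by
    have : ∀ a ∈ Finset.range r, psi r a = 1 / r := by
      intro a ha
      unfold psi
      rw [if_neg (by omega), if_pos (Finset.mem_range.1 ha)]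
    rw [Finset.sum_congr rfl this, Finset.sum_const, Finset.card_range, nsmul_eq_mul]
    have hr0 : (r : ℝ) ≠ 0 := by
      have : r ≠ 0 := by omega
      exact_mod_cast this
    field_simp
  have h2 : psi r r = -1 := by
    unfold psi
    rw [if_neg (by omega), if_neg (lt_irrefl _), if_pos rfl]
  have h3 : ∑ x ∈ Finset.range d, psi r (r + 1 + x) = 0 := by
    refine Finset.sum_eq_zero fun x _ => ?_
    unfold psi
    rw [if_neg (by omega), if_neg (by omega), if_neg (by omega)]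
  rw [h1, h2, h3]
  norm_num

/-- the coefficients of `fb` on the grid `1 / (b 2 ^ (k + 1))` -/
noncomputable def Fb (q : ℕ × ℕ × ℕ × ℕ) (c : ℕ) : ℝ :=
  psi q.1 (c / 2 ^ (q.2.2.1 + 1)) * (if q.2.1 = 0 then 1 else
    (if c % 2 ^ (q.2.2.1 + 1) = 2 * q.2.2.2 then 1 else 0) - (if c % 2 ^ (q.2.2.1 + 1) = 2 * q.2.2.2 + 1 then 1 else 0))

theorem floor_mul_fract (n : ℕ) {z : ℝ} (hz : 0 ≤ z) : ⌊(n : ℝ) * Int.fract z⌋₊ = ⌊(n : ℝ) * z⌋₊ % n := by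
  rcases Nat.eq_zero_or_pos n with h0 | h0
  · subst h0
    simp
  have h1 : Int.fract z = z - (⌊z⌋₊ : ℝ) := by
    rw [Int.fract, ← natCast_floor_eq_intCast_floor hz]
  have h2 : (n : ℝ) * Int.fract z = n * z - ((n * ⌊z⌋₊ : ℕ) : ℝ) := by
    rw [h1]
    push_cast
    ring
  have h3 : ⌊z⌋₊ = ⌊(n : ℝ) * z⌋₊ / n := by
    rw [← Nat.floor_div_natCast]
    congr 1
    have : (n : ℝ) ≠ 0 := by
      have : n ≠ 0 := by omega
      exact_mod_cast this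
    field_simp
  rw [h2, Nat.floor_sub_natCast, h3]
  exact (Nat.mod_eq_sub_mul_div).symm

theorem fb_eq (b : ℕ) (hb : 1 ≤ b) (q : ℕ × ℕ × ℕ × ℕ) : fb b q = stp (b * 2 ^ (q.2.2.1 + 1)) (Fb q) := by
  funext x
  obtain ⟨r, s, k, i⟩ := q
  simp only [fb, stp, Fb]
  obtain ⟨y, hy⟩ : ∃ y, y = Int.fract x := ⟨_, rfl⟩
  have hy0 : 0 ≤ y := by rw [hy]; exact Int.fract_nonneg x
  have hb0 : (0 : ℝ) < b := by exact_mod_cast hb
  obtain ⟨c, hc⟩ : ∃ c, c = ⌊((b * 2 ^ (k + 1) : ℕ) : ℝ) * y⌋₊ := ⟨_, rfl⟩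
  have e1 : ⌊(b : ℝ) * y⌋₊ = c / 2 ^ (k + 1) := by
    rw [hc, ← Nat.floor_div_natCast]
    congr 1
    push_cast
    field_simp
  have hfr : Int.fract ((b : ℝ) * x) = Int.fract ((b : ℝ) * y) := by
    have : (b : ℝ) * x = b * y + ((b * ⌊x⌋ : ℤ) : ℝ) := by
      rw [hy, Int.fract]
      push_cast
      ring
    rw [this, Int.fract_add_intCast]
  have e3 : ⌊(2 : ℝ) ^ (k + 1) * Int.fract ((b : ℝ) * x)⌋₊ = c % 2 ^ (k + 1) := by
    rw [hfr, hc]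
    have h := floor_mul_fract (2 ^ (k + 1)) (z := (b : ℝ) * y) (by positivity)
    push_cast at h
    rw [h]
    congr 2
    push_cast
    ring
  have e4 : ∀ j : ℕ, ind (k + 1) j ((b : ℝ) * x) = if c % 2 ^ (k + 1) = j then 1 else 0 := by
    intro j
    unfold ind
    rw [← Int.natCast_floor_eq_floor (by positivity), e3]
    simp only [Nat.cast_inj]
  rw [← hy, e1, ← hc, haar, e4, e4]

/-- the support -/
def Sb (b : ℕ) (q : ℕ × ℕ × ℕ × ℕ) : Finset ℕ :=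
  (Finset.range b ×ˢ Finset.range 2).image fun p => p.1 * 2 ^ (q.2.2.1 + 1) + (2 * q.2.2.2 + p.2)

theorem dig {k i : ℕ} (hi : i < 2 ^ k) {d e : ℕ} (he : e < 2) :
    (d * 2 ^ (k + 1) + (2 * i + e)) / 2 ^ (k + 1) = d ∧ (d * 2 ^ (k + 1) + (2 * i + e)) % 2 ^ (k + 1) = 2 * i + e := by
  have h1 : 2 * i + e < 2 ^ (k + 1) := by
    rw [pow_succ]
    omega
  constructor
  · rw [mul_comm d, Nat.mul_add_div (by positivity), Nat.div_eq_of_lt h1, add_zero]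
  · rw [mul_comm d, Nat.mul_add_mod, Nat.mod_eq_of_lt h1]

theorem Sb_sum {b : ℕ} {q : ℕ × ℕ × ℕ × ℕ} (hi : q.2.2.2 < 2 ^ q.2.2.1) (f : ℕ → ℝ) :
    ∑ c ∈ Sb b q, f c = ∑ d ∈ Finset.range b, ∑ e ∈ Finset.range 2, f (d * 2 ^ (q.2.2.1 + 1) + (2 * q.2.2.2 + e)) := by
  unfold Sb
  rw [Finset.sum_image, Finset.sum_product]
  rintro ⟨d, e⟩ h ⟨d', e'⟩ h' heq
  simp only [Finset.coe_product, Finset.coe_range, Set.mem_prod, Set.mem_Iio] at h h'
  simp only at heq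
  obtain ⟨h1, h3⟩ := dig hi (d := d) h.2
  obtain ⟨h1', h3'⟩ := dig hi (d := d') h'.2
  rw [heq] at h1 h3
  rw [Prod.mk.injEq]
  refine ⟨h1.symm.trans h1', ?_⟩
  have := h3.symm.trans h3'
  omega

theorem Sb_card (b : ℕ) (q : ℕ × ℕ × ℕ × ℕ) : (Sb b q).card ≤ b * 2 := by
  unfold Sb
  exact Finset.card_image_le.trans (by simp)

theorem Sb_lt {b : ℕ} {q : ℕ × ℕ × ℕ × ℕ} (hi : q.2.2.2 < 2 ^ q.2.2.1) {c : ℕ} (hc : c ∈ Sb b q) : c < b * 2 ^ (q.2.2.1 + 1) := by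
  unfold Sb at hc
  rw [Finset.mem_image] at hc
  obtain ⟨⟨d, e⟩, hde, rfl⟩ := hc
  rw [Finset.mem_product, Finset.mem_range, Finset.mem_range] at hde
  obtain ⟨hd, he⟩ := hde
  simp only at hd he ⊢
  have h4 : (d + 1) * 2 ^ (q.2.2.1 + 1) ≤ b * 2 ^ (q.2.2.1 + 1) := Nat.mul_le_mul_right _ hd
  have h5 : 2 * q.2.2.2 + e < 2 ^ (q.2.2.1 + 1) := by
    rw [pow_succ]
    omega
  have h6 : (d + 1) * 2 ^ (q.2.2.1 + 1) = d * 2 ^ (q.2.2.1 + 1) + 2 ^ (q.2.2.1 + 1) := by ring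
  omega

/-- the facts on the indices -/
theorem Ib_mem {b K : ℕ} {q : ℕ × ℕ × ℕ × ℕ} (hq : q ∈ Ib b K) :
    1 ≤ q.1 ∧ q.1 < b ∧ q.2.2.1 < K ∧ q.2.2.2 < 2 ^ q.2.2.1 ∧ (q.2.1 = 0 → q.2.2.1 = 0 ∧ q.2.2.2 = 0) := by
  unfold Ib at hq
  rw [Finset.mem_filter, Finset.mem_product, Finset.mem_product, Finset.mem_product] at hq
  simp only [Finset.mem_range] at hq
  obtain ⟨⟨h1, h2, h3, h4⟩, h5, h6⟩ := hq
  refine ⟨h5, h1, h3, ?_, fun h0 => ?_⟩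
  · rcases h6 with ⟨_, h7, h8⟩ | ⟨_, h8⟩
    · rw [h7, h8]
      simp
    · exact h8
  · rcases h6 with ⟨_, h7, h8⟩ | ⟨h7, _⟩
    · exact ⟨h7, h8⟩
    · omega

theorem Sb_supp {b K : ℕ} {q : ℕ × ℕ × ℕ × ℕ} (hq : q ∈ Ib b K) {c : ℕ} (hc : c < b * 2 ^ (q.2.2.1 + 1)) (hcS : c ∉ Sb b q) :
    Fb q c = 0 := by
  obtain ⟨_, _, _, _, h5⟩ := Ib_mem hq
  have hmem : ∀ e < 2, c % 2 ^ (q.2.2.1 + 1) = 2 * q.2.2.2 + e → False := by
    intro e he h
    apply hcS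
    unfold Sb
    rw [Finset.mem_image]
    refine ⟨(c / 2 ^ (q.2.2.1 + 1), e), ?_, ?_⟩
    · rw [Finset.mem_product, Finset.mem_range, Finset.mem_range]
      refine ⟨?_, he⟩
      rw [Nat.div_lt_iff_lt_mul (by positivity)]
      exact hc
    · simp only
      rw [← h, mul_comm]
      exact Nat.div_add_mod c _
  unfold Fb
  by_cases h0 : q.2.1 = 0
  · exfalso
    obtain ⟨h6, h7⟩ := h5 h0
    rcases Nat.mod_two_eq_zero_or_one c with h | h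
    · exact hmem 0 (by norm_num) (by rw [h6, h7]; simpa using h)
    · exact hmem 1 (by norm_num) (by rw [h6, h7]; simpa using h)
  · rw [if_neg h0, if_neg (fun h => hmem 0 (by norm_num) (by simpa using h)), if_neg (fun h => hmem 1 (by norm_num) h), sub_zero,
      mul_zero]

theorem Fb_abs (q : ℕ × ℕ × ℕ × ℕ) (c : ℕ) : |Fb q c| ≤ 1 := by
  unfold Fb
  rw [abs_mul]
  refine mul_le_one₀ (psi_abs _ _) (abs_nonneg _) ?_
  split_ifs <;> simp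

theorem Fb_sum {b K : ℕ} {q : ℕ × ℕ × ℕ × ℕ} (hq : q ∈ Ib b K) : ∑ c ∈ Sb b q, Fb q c = 0 := by
  obtain ⟨h1, h2, h3, h4, h5⟩ := Ib_mem hq
  rw [Sb_sum h4]
  have e : ∀ d ∈ Finset.range b, ∑ e ∈ Finset.range 2, Fb q (d * 2 ^ (q.2.2.1 + 1) + (2 * q.2.2.2 + e)) =
      psi q.1 d * (if q.2.1 = 0 then 2 else 0) := by
    intro d _
    rw [Finset.sum_range_succ, Finset.sum_range_one]
    obtain ⟨a1, a2⟩ := dig h4 (d := d) (e := 0) (by norm_num)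
    obtain ⟨b1, b2⟩ := dig h4 (d := d) (e := 1) (by norm_num)
    unfold Fb
    rw [a1, a2, b1, b2]
    by_cases h0 : q.2.1 = 0
    · rw [if_pos h0, if_pos h0, if_pos h0]
      ring
    · rw [if_neg h0, if_neg h0, if_neg h0, if_pos (add_zero _), if_neg (by omega), if_neg (by omega), if_pos rfl]
      ring
  rw [Finset.sum_congr rfl e, ← Finset.sum_mul, psi_sum h1 h2, zero_mul]

/-- SYb1 -/
theorem fb_fn {b K : ℕ} (hb : 2 ≤ b) (hK : 1 ≤ K) {q : ℕ × ℕ × ℕ × ℕ} (hq : q ∈ Ib b K) : Fn (sysN b K) (sysm b) (sysm b * sysv b q) (fb b q) := by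
  obtain ⟨h1, h2, h3, h4, h5⟩ := Ib_mem hq
  have hb1 : 1 ≤ b := by omega
  have hbr : (2 : ℝ) ≤ b := by exact_mod_cast hb
  have hb0 : (b : ℝ) ≠ 0 := by linarith
  have hbn : b ≠ 0 := by omega
  rw [fb_eq b hb1 q]
  refine fn_stp (S := Sb b q) (Nat.mul_pos hb1 (by positivity)) (fun c hc hcS => Sb_supp hq hc hcS) (fun c hc => Sb_lt h4 hc) (Fb_abs q)
    (Fb_sum hq) ?_ ?_ ?_
  · refine ⟨2 ^ (K - (q.2.2.1 + 1)), Nat.one_le_two_pow, ?_⟩
    unfold sysN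
    rw [if_neg hbn, mul_assoc, ← pow_add]
    congr 2
    omega
  · unfold sysm
    rw [if_neg hbn]
    have := Sb_card b q
    omega
  · unfold sysm sysv
    rw [if_neg hbn, if_neg hbn]
    have hc : ((Sb b q).card : ℝ) ≤ b * 2 := by exact_mod_cast Sb_card b q
    have e1 : (0 : ℝ) ≤ 1 / q.1 := by positivity
    have e3 : ((Sb b q).card : ℝ) / ((b * 2 ^ (q.2.2.1 + 1) : ℕ) : ℝ) ≤ (1 / 2 : ℝ) ^ q.2.2.1 := by
      push_cast
      rw [div_le_iff₀ (by positivity), one_div, inv_pow, pow_succ]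
      have : (2 : ℝ) ^ q.2.2.1 ≠ 0 := by positivity
      field_simp
      linarith
    refine e3.trans ?_
    push_cast
    have e4 : 4 * (b : ℝ) * ((1 + 1 / (q.1 : ℝ)) / b * (1 / 2) ^ q.2.2.1) = (1 / 2) ^ q.2.2.1 * (4 * (1 + 1 / (q.1 : ℝ))) := by
      field_simp
    rw [e4]
    exact le_mul_of_one_le_right (by positivity) (by linarith)

end Pool.Agent.Helper36.LD4
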