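import Pool.Agent.Helper41.LD4.Defs

/-!
# Project LD4: step functions on the circle satisfy `Fn`
-/

set_option autoImplicit false

namespace Pool.Agent.Helper36.LD4

open Set MeasureTheory
open Pool.Agent.Helper41.LD2 (EqA)
open Pool.Agent.Helper41.LD4

/-- step function of period 1 on the grid `1 / N` -/
noncomputable def stp (N : ℕ) (F : ℕ → ℝ) (x : ℝ) : ℝ := F ⌊(N : ℝ) * Int.fract x⌋₊

variable {N : ℕ} {F : ℕ → ℝ}

theorem stp_meas (N : ℕ) (F : ℕ → ℝ) : Measurable (stp N F) :=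
  (measurable_from_nat (f := F)).comp (Nat.measurable_floor.comp (measurable_fract.const_mul _))

theorem stp_per (N : ℕ) (F : ℕ → ℝ) : Function.Periodic (stp N F) 1 := fun x => by
  unfold stp
  rw [Int.fract_add_one]

theorem ii_bdd {f : ℝ → ℝ} {C : ℝ} (hf : Measurable f) (h : ∀ x, |f x| ≤ C) (a b : ℝ) : IntervalIntegrable f volume a b :=
  (intervalIntegrable_const (c := C)).mono_fun hf.aestronglyMeasurable
    (ae_of_all _ fun x => by simpa using (h x).trans (le_abs_self C))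

/-- the cell -/
theorem cell_iff (hN : 1 ≤ N) (c : ℕ) (x : ℝ) :
    ⌊(N : ℝ) * Int.fract x⌋₊ = c ↔ (c : ℝ) / N ≤ Int.fract x ∧ Int.fract x < ((c : ℝ) + 1) / N := by
  have hN0 : (0 : ℝ) < N := by exact_mod_cast hN
  rw [Nat.floor_eq_iff (mul_nonneg hN0.le (Int.fract_nonneg x)), div_le_iff₀ hN0, lt_div_iff₀ hN0, mul_comm (N : ℝ)]

theorem cell_lt (hN : 1 ≤ N) (x : ℝ) : ⌊(N : ℝ) * Int.fract x⌋₊ < N := by
  have hN0 : (0 : ℝ) < N := by exact_mod_cast hN
  rw [Nat.floor_lt (mul_nonneg hN0.le (Int.fract_nonneg x))]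
  calc (N : ℝ) * Int.fract x < N * 1 := mul_lt_mul_of_pos_left (Int.fract_lt_one x) hN0
    _ = N := mul_one _

theorem stp_eq_sum (hN : 1 ≤ N) {S : Finset ℕ} (hS : ∀ c < N, c ∉ S → F c = 0) (x : ℝ) :
    stp N F x = ∑ c ∈ S, F c * (if (c : ℝ) / N ≤ Int.fract x ∧ Int.fract x < ((c : ℝ) + 1) / N then 1 else 0) := by
  have h1 : ∀ c ∈ S, F c * (if (c : ℝ) / N ≤ Int.fract x ∧ Int.fract x < ((c : ℝ) + 1) / N then (1 : ℝ) else 0) =
      if ⌊(N : ℝ) * Int.fract x⌋₊ = c then F c else 0 := by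
    intro c _
    simp only [cell_iff hN, mul_ite, mul_one, mul_zero]
  rw [Finset.sum_congr rfl h1, Finset.sum_ite_eq]
  unfold stp
  split_ifs with h
  · rfl
  · exact hS _ (cell_lt hN x) h

/-- one cell, one period -/
theorem base_eq {u u' : ℝ} {g : ℝ → ℝ} (n : ℤ) {p q : ℝ} (hpq : p ≤ q) (hp : (n : ℝ) ≤ p) (hq : q ≤ n + 1) :
    ∫ t in p..q, (if u ≤ Int.fract t ∧ Int.fract t < u' then (1 : ℝ) else 0) * g t =
      if max p (n + u) ≤ min q (n + u') then ∫ t in (max p (n + u))..(min q (n + u')), g t else 0 := by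
  have h1 : ∫ t in p..q, (if u ≤ Int.fract t ∧ Int.fract t < u' then (1 : ℝ) else 0) * g t =
      ∫ t in Ioo p q ∩ Ico ((n : ℝ) + u) (n + u'), g t := by
    rw [intervalIntegral.integral_of_le hpq, integral_Ioc_eq_integral_Ioo, ← setIntegral_indicator measurableSet_Ico]
    refine setIntegral_congr_fun measurableSet_Ioo fun t ht => ?_
    have hfl : Int.fract t = t - n := by
      rw [Int.fract_eq_iff]
      refine ⟨by linarith [ht.1], by linarith [ht.2], n, by ring⟩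
    simp only [indicator, mem_Ico, hfl, ite_mul, one_mul, zero_mul]
    congr 1
    rw [eq_iff_iff]
    constructor
    · rintro ⟨h1, h2⟩
      exact ⟨by linarith, by linarith⟩
    · rintro ⟨h1, h2⟩
      exact ⟨by linarith, by linarith⟩
  have h2 : ∫ t in Ioo p q ∩ Ico ((n : ℝ) + u) (n + u'), g t = ∫ t in Ioo (max p (n + u)) (min q (n + u')), g t := by
    rw [← Ioo_inter_Ioo]
    exact setIntegral_congr_set ((Filter.EventuallyEq.refl _ _).inter Ioo_ae_eq_Ico.symm)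
  rw [h1, h2]
  split_ifs with h
  · rw [intervalIntegral.integral_of_le h, integral_Ioc_eq_integral_Ioo]
  · rw [Ioo_eq_empty (fun h' => h h'.le)]
    simp

theorem int_cell (hN : 1 ≤ N) {c : ℕ} (hc : c < N) :
    ∫ t in (0 : ℝ)..1, (if (c : ℝ) / N ≤ Int.fract t ∧ Int.fract t < ((c : ℝ) + 1) / N then (1 : ℝ) else 0) = 1 / N := by
  have hN0 : (0 : ℝ) < N := by exact_mod_cast hN
  have h0 : (0 : ℝ) ≤ c / N := by positivity
  have h1 : ((c : ℝ) + 1) / N ≤ 1 := by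
    rw [div_le_one hN0]
    exact_mod_cast hc
  have h2 : (c : ℝ) / N ≤ (c + 1) / N := by
    gcongr
    linarith
  have h := base_eq (u := (c : ℝ) / N) (u' := ((c : ℝ) + 1) / N) (g := fun _ => (1 : ℝ)) 0 (p := 0) (q := 1) zero_le_one (by simp) (by simp)
  simp only [mul_one, Int.cast_zero, zero_add, max_eq_right h0, min_eq_right h1, if_pos h2, intervalIntegral.integral_const,
    smul_eq_mul] at h
  rw [h]
  ring

theorem cell_meas (u u' : ℝ) : Measurable fun t : ℝ => if u ≤ Int.fract t ∧ Int.fract t < u' then (1 : ℝ) else 0 :=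
  Measurable.ite ((measurableSet_le measurable_const measurable_fract).inter (measurableSet_lt measurable_fract measurable_const))
    measurable_const measurable_const

theorem cell_abs (u u' t : ℝ) : |if u ≤ Int.fract t ∧ Int.fract t < u' then (1 : ℝ) else 0| ≤ 1 := by
  split_ifs <;> simp

theorem int_stp (hN : 1 ≤ N) {S : Finset ℕ} (hS : ∀ c < N, c ∉ S → F c = 0) (hSN : ∀ c ∈ S, c < N) :
    ∫ t in (0 : ℝ)..1, stp N F t = (∑ c ∈ S, F c) / N := by
  simp_rw [stp_eq_sum hN hS]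
  rw [intervalIntegral.integral_finsetSum, Finset.sum_div]
  · refine Finset.sum_congr rfl fun c hc => ?_
    rw [intervalIntegral.integral_const_mul, int_cell hN (hSN c hc)]
    ring
  · intro c _
    exact (ii_bdd (cell_meas _ _) (cell_abs _ _) 0 1).const_mul _

/-- periodic functions of mean zero -/
theorem prim_le {f : ℝ → ℝ} {C : ℝ} (hf : Measurable f) (hC : ∀ x, |f x| ≤ C) (hp : Function.Periodic f 1)
    (h0 : ∫ t in (0 : ℝ)..1, f t = 0) (p q : ℝ) : |∫ t in p..q, f t| ≤ ∫ t in (0 : ℝ)..1, |f t| := by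
  have hi := ii_bdd hf hC
  have hia : ∀ a b, IntervalIntegrable (fun t => |f t|) volume a b := fun a b => (hi a b).abs
  wlog hpq : p ≤ q generalizing p q
  · rw [intervalIntegral.integral_symm, abs_neg]
    exact this q p (le_of_not_ge hpq)
  have hn0 : (0 : ℤ) ≤ ⌊q - p⌋ := Int.floor_nonneg.2 (by linarith)
  have h1 : ∫ t in p..(p + ⌊q - p⌋ • (1 : ℝ)), f t = 0 := by
    rw [hp.intervalIntegral_add_zsmul_eq ⌊q - p⌋ p hi, hp.intervalIntegral_add_eq p 0, zero_add, h0, smul_zero]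
  have h2 : ∫ t in p..q, f t = ∫ t in (p + ⌊q - p⌋ • (1 : ℝ))..q, f t := by
    rw [← intervalIntegral.integral_add_adjacent_intervals (hi p (p + ⌊q - p⌋ • (1 : ℝ))) (hi _ q), h1, zero_add]
  have e1 : ⌊q - p⌋ • (1 : ℝ) = (⌊q - p⌋ : ℝ) := by simp
  rw [h2, e1]
  have h3 := Int.floor_le (q - p)
  have h4 := Int.lt_floor_add_one (q - p)
  obtain ⟨s, hs⟩ : ∃ s : ℝ, s = p + (⌊q - p⌋ : ℝ) := ⟨_, rfl⟩
  rw [← hs]
  have h5 : s ≤ q := by linarith
  have h6 : q ≤ s + 1 := by linarith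
  have hpa : Function.Periodic (fun t => |f t|) 1 := fun t => by
    show |f (t + 1)| = |f t|
    rw [hp t]
  calc |∫ t in s..q, f t| ≤ ∫ t in s..q, |f t| := intervalIntegral.abs_integral_le_integral_abs h5
    _ ≤ ∫ t in s..(s + 1), |f t| :=
        intervalIntegral.integral_mono_interval le_rfl h5 h6 (ae_of_all _ fun t => abs_nonneg _) (hia _ _)
    _ = ∫ t in (0 : ℝ)..(0 + 1), |f t| := hpa.intervalIntegral_add_eq s 0
    _ = _ := by rw [zero_add]

/-- pieces -/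
theorem piece_aux {u u' : ℝ} {g : ℝ → ℝ} {η : ℝ} (hgm : Measurable g) (hg1 : ∀ x, |g x| ≤ 1)
    (hg : ∀ p q : ℝ, |∫ t in p..q, g t| ≤ η) (k : ℕ) : ∀ p q : ℝ, p ≤ q → q ≤ ⌊p⌋ + 1 + k →
    |∫ t in p..q, (if u ≤ Int.fract t ∧ Int.fract t < u' then (1 : ℝ) else 0) * g t| ≤ η * (k + 1) := by
  have hη : 0 ≤ η := (abs_nonneg _).trans (hg 0 0)
  have hbase : ∀ (n : ℤ) (p q : ℝ), p ≤ q → (n : ℝ) ≤ p → q ≤ n + 1 →
      |∫ t in p..q, (if u ≤ Int.fract t ∧ Int.fract t < u' then (1 : ℝ) else 0) * g t| ≤ η := by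
    intro n p q hpq hp hq
    rw [base_eq n hpq hp hq]
    split_ifs
    · exact hg _ _
    · simpa using hη
  have hii : ∀ a b, IntervalIntegrable (fun t => (if u ≤ Int.fract t ∧ Int.fract t < u' then (1 : ℝ) else 0) * g t) volume a b := by
    intro a b
    refine ii_bdd (C := 1) ((cell_meas u u').mul hgm) (fun x => ?_) a b
    rw [Pi.mul_apply, abs_mul]
    exact mul_le_one₀ (cell_abs _ _ _) (abs_nonneg _) (hg1 x)
  induction k with
  | zero =>
    intro p q hpq hq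
    have := hbase ⌊p⌋ p q hpq (Int.floor_le p) (by simpa using hq)
    simpa using this
  | succ k ih =>
    intro p q hpq hq
    by_cases h : q ≤ ⌊p⌋ + 1
    · refine (hbase ⌊p⌋ p q hpq (Int.floor_le p) h).trans ?_
      have : (0 : ℝ) ≤ ((k + 1 : ℕ) : ℝ) := by positivity
      nlinarith
    · have h1 : (⌊p⌋ : ℝ) + 1 ≤ q := (not_le.1 h).le
      have h2 : p ≤ (⌊p⌋ : ℝ) + 1 := (Int.lt_floor_add_one p).le
      have h3 := hbase ⌊p⌋ p (⌊p⌋ + 1) h2 (Int.floor_le p) le_rfl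
      have h4 := ih ((⌊p⌋ : ℝ) + 1) q h1 (by
        have e : ⌊((⌊p⌋ : ℝ) + 1)⌋ = ⌊p⌋ + 1 := by
          rw [Int.floor_add_one, Int.floor_intCast]
        rw [e]
        push_cast at hq ⊢
        linarith)
      rw [← intervalIntegral.integral_add_adjacent_intervals (hii p (⌊p⌋ + 1)) (hii _ q)]
      refine (abs_add_le _ _).trans ?_
      push_cast
      linarith

theorem piece_cell {u u' : ℝ} {g : ℝ → ℝ} {η : ℝ} (hgm : Measurable g) (hg1 : ∀ x, |g x| ≤ 1)
    (hg : ∀ p q : ℝ, |∫ t in p..q, g t| ≤ η) {p q : ℝ} (hpq : p ≤ q) :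
    |∫ t in p..q, (if u ≤ Int.fract t ∧ Int.fract t < u' then (1 : ℝ) else 0) * g t| ≤ η * (q - p + 2) := by
  have hη : 0 ≤ η := (abs_nonneg _).trans (hg 0 0)
  have h1 := Int.floor_le p
  have h2 := Int.lt_floor_add_one p
  have h3 := Nat.le_ceil (q - ⌊p⌋ - 1)
  refine (piece_aux hgm hg1 hg ⌈q - ⌊p⌋ - 1⌉₊ p q hpq (by linarith)).trans ?_
  refine mul_le_mul_of_nonneg_left ?_ hη
  by_cases h : q - ⌊p⌋ - 1 ≤ 0
  · rw [Nat.ceil_eq_zero.2 h]
    simp only [Nat.cast_zero, zero_add]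
    linarith
  · have h4 := Nat.ceil_lt_add_one (not_le.1 h).le
    linarith

/-- integer parts on a finer grid -/
theorem floor_grid {N d : ℕ} (hd : 1 ≤ d) {s t : ℝ} (h : ⌊((N * d : ℕ) : ℝ) * s⌋ = ⌊((N * d : ℕ) : ℝ) * t⌋) :
    ⌊(N : ℝ) * s⌋ = ⌊(N : ℝ) * t⌋ := by
  have hd0 : (0 : ℝ) < d := by exact_mod_cast hd
  obtain ⟨z, hz⟩ : ∃ z, z = ⌊((N * d : ℕ) : ℝ) * s⌋ := ⟨_, rfl⟩
  obtain ⟨y, hy⟩ : ∃ y, y = ⌊(N : ℝ) * s⌋ := ⟨_, rfl⟩
  rw [← hz] at h
  rw [← hy]
  have h1 := Int.floor_eq_iff.1 hz.symm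
  have h2 := Int.floor_eq_iff.1 h.symm
  have h3 := Int.floor_eq_iff.1 hy.symm
  push_cast at h1 h2
  have h4 : y * d ≤ z := by
    rw [hz, Int.le_floor]
    push_cast
    nlinarith
  have h5 : z + 1 ≤ (y + 1) * d := by
    have : z < (y + 1) * d := by
      have h6 : (z : ℝ) < (y + 1) * d := by nlinarith
      exact_mod_cast h6
    omega
  have h4' : (y : ℝ) * d ≤ z := by exact_mod_cast h4
  have h5' : (z : ℝ) + 1 ≤ (y + 1) * d := by exact_mod_cast h5
  symm
  rw [Int.floor_eq_iff]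
  constructor
  · have : (y : ℝ) * d ≤ N * t * d := by nlinarith
    exact le_of_mul_le_mul_right this hd0
  · have : (N : ℝ) * t * d < (y + 1) * d := by nlinarith
    exact lt_of_mul_lt_mul_right this hd0.le

theorem stp_grid {N d : ℕ} (hN : 1 ≤ N) (hd : 1 ≤ d) (F : ℕ → ℝ) {s t : ℝ}
    (h : ⌊((N * d : ℕ) : ℝ) * s⌋ = ⌊((N * d : ℕ) : ℝ) * t⌋) : stp N F s = stp N F t := by
  have h1 := floor_grid hd h
  have h2 : ⌊s⌋ = ⌊t⌋ := by
    have h3 := floor_grid (N := 1) (d := N * d) (Nat.mul_pos hN hd) (s := s) (t := t) (by rw [one_mul]; exact h)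
    simpa using h3
  have h4 : ⌊(N : ℝ) * Int.fract s⌋ = ⌊(N : ℝ) * Int.fract t⌋ := by
    have e : ∀ x : ℝ, (N : ℝ) * Int.fract x = N * x - ((N * ⌊x⌋ : ℤ) : ℝ) := fun x => by
      unfold Int.fract
      push_cast
      ring
    rw [e, e, Int.floor_sub_intCast, Int.floor_sub_intCast, h1, h2]
  unfold stp
  rw [← Int.floor_toNat, ← Int.floor_toNat, h4]

/-- **step functions** -/
theorem fn_stp (hN : 1 ≤ N) {S : Finset ℕ} (hS : ∀ c < N, c ∉ S → F c = 0) (hSN : ∀ c ∈ S, c < N) (hF1 : ∀ c, |F c| ≤ 1)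
    (hF0 : ∑ c ∈ S, F c = 0) {N₀ m : ℕ} {w : ℝ} (hN₀ : ∃ d : ℕ, 1 ≤ d ∧ N₀ = N * d) (hm : S.card ≤ m) (hw : (S.card : ℝ) / N ≤ w) :
    Fn N₀ m w (stp N F) := by
  have hN0 : (0 : ℝ) < N := by exact_mod_cast hN
  have hmr : (S.card : ℝ) ≤ m := by exact_mod_cast hm
  refine ⟨stp_meas N F, fun x => hF1 _, stp_per N F, fun p q => ?_, fun α Q₀ ε hE hε Q hQ x => ?_, fun g η hgm hg1 hg p q hpq => ?_,
    fun s t h => ?_⟩
  · have h1 : ∫ t in (0 : ℝ)..1, stp N F t = 0 := by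
      rw [int_stp hN hS hSN, hF0, zero_div]
    refine (prim_le (stp_meas N F) (fun x => hF1 _) (stp_per N F) h1 p q).trans ?_
    have h2 : (fun t => |stp N F t|) = stp N fun c => |F c| := rfl
    have h3 : ∫ t in (0 : ℝ)..1, |stp N F t| = (∑ c ∈ S, |F c|) / N := by
      rw [h2]
      exact int_stp hN (fun c hc hcS => by rw [hS c hc hcS, abs_zero]) hSN
    rw [h3]
    refine le_trans ?_ hw
    have h4 : ∑ c ∈ S, |F c| ≤ S.card := by
      calc ∑ c ∈ S, |F c| ≤ ∑ c ∈ S, (1 : ℝ) := Finset.sum_le_sum fun c _ => hF1 c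
        _ = S.card := by simp
    gcongr
  · have h1 : ∑ k ∈ Finset.range Q, stp N F (k * α + x) =
        ∑ c ∈ S, F c * (((Finset.range Q).filter fun k : ℕ => (c : ℝ) / N ≤ Int.fract (k * α + x) ∧
          Int.fract (k * α + x) < ((c : ℝ) + 1) / N).card : ℝ) := by
      simp_rw [stp_eq_sum hN hS]
      rw [Finset.sum_comm]
      refine Finset.sum_congr rfl fun c _ => ?_
      rw [← Finset.mul_sum, Finset.sum_boole]
    have h2 : ∀ c ∈ S, |(((Finset.range Q).filter fun k : ℕ => (c : ℝ) / N ≤ Int.fract (k * α + x) ∧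
          Int.fract (k * α + x) < ((c : ℝ) + 1) / N).card : ℝ) - Q * (1 / N)| ≤ ε * Q := by
      intro c hc
      have hc1 : ((c : ℝ) + 1) / N ≤ 1 := by
        rw [div_le_one hN0]
        exact_mod_cast hSN c hc
      have h3 := hE Q hQ x ((c : ℝ) / N) (((c : ℝ) + 1) / N) (by positivity) (by gcongr; linarith) hc1
      have e : ((c : ℝ) + 1) / N - c / N = 1 / N := by ring
      rw [e] at h3
      exact h3
    have h4 : ∑ c ∈ S, F c * (((Finset.range Q).filter fun k : ℕ => (c : ℝ) / N ≤ Int.fract (k * α + x) ∧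
          Int.fract (k * α + x) < ((c : ℝ) + 1) / N).card : ℝ) =
        ∑ c ∈ S, F c * ((((Finset.range Q).filter fun k : ℕ => (c : ℝ) / N ≤ Int.fract (k * α + x) ∧
          Int.fract (k * α + x) < ((c : ℝ) + 1) / N).card : ℝ) - Q * (1 / N)) := by
      have h5 : ∑ c ∈ S, F c * ((Q : ℝ) * (1 / N)) = 0 := by
        rw [← Finset.sum_mul, hF0, zero_mul]
      simp only [mul_sub]
      rw [Finset.sum_sub_distrib, h5, sub_zero]
    rw [h1, h4]
    calc |∑ c ∈ S, F c * ((((Finset.range Q).filter fun k : ℕ => (c : ℝ) / N ≤ Int.fract (k * α + x) ∧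
          Int.fract (k * α + x) < ((c : ℝ) + 1) / N).card : ℝ) - Q * (1 / N))| ≤ ∑ c ∈ S, ε * Q := by
          refine (Finset.abs_sum_le_sum_abs _ _).trans (Finset.sum_le_sum fun c hc => ?_)
          rw [abs_mul]
          calc _ ≤ 1 * (ε * Q) := mul_le_mul (hF1 c) (h2 c hc) (abs_nonneg _) zero_le_one
            _ = ε * Q := one_mul _
      _ = S.card * (ε * Q) := by rw [Finset.sum_const, nsmul_eq_mul]
      _ ≤ m * (ε * Q) := mul_le_mul_of_nonneg_right hmr (by positivity)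
      _ = m * ε * Q := by ring
  · have hη : 0 ≤ η := (abs_nonneg _).trans (hg 0 0)
    have h1 : ∀ t, stp N F t * g t = ∑ c ∈ S, F c *
        ((if (c : ℝ) / N ≤ Int.fract t ∧ Int.fract t < ((c : ℝ) + 1) / N then 1 else 0) * g t) := by
      intro t
      rw [stp_eq_sum hN hS, Finset.sum_mul]
      refine Finset.sum_congr rfl fun c _ => ?_
      ring
    simp_rw [h1]
    rw [intervalIntegral.integral_finsetSum]
    · calc |∑ c ∈ S, ∫ t in p..q, F c * ((if (c : ℝ) / N ≤ Int.fract t ∧ Int.fract t < ((c : ℝ) + 1) / N then 1 else 0) * g t)| ≤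
          ∑ c ∈ S, η * (q - p + 2) := by
            refine (Finset.abs_sum_le_sum_abs _ _).trans (Finset.sum_le_sum fun c _ => ?_)
            rw [intervalIntegral.integral_const_mul, abs_mul]
            calc _ ≤ 1 * (η * (q - p + 2)) := mul_le_mul (hF1 c) (piece_cell hgm hg1 hg hpq) (abs_nonneg _) zero_le_one
              _ = _ := one_mul _
        _ = S.card * (η * (q - p + 2)) := by rw [Finset.sum_const, nsmul_eq_mul]
        _ ≤ m * (η * (q - p + 2)) := mul_le_mul_of_nonneg_right hmr (mul_nonneg hη (by linarith))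
        _ = m * η * (q - p + 2) := by ring
    · intro c _
      refine IntervalIntegrable.const_mul (ii_bdd (C := 1) ((cell_meas _ _).mul hgm) (fun x => ?_) p q) _
      rw [Pi.mul_apply, abs_mul]
      exact mul_le_one₀ (cell_abs _ _ _) (abs_nonneg _) (hg1 x)
  · obtain ⟨d, hd, rfl⟩ := hN₀
    exact stp_grid hN hd F h

end Pool.Agent.Helper36.LD4
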